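import Pool.Agent.L0h77.WK.FinB

/-!
# Almost every orthonormal basis of the square has the random wave limit

`Sq` is the open unit square. For `e ≥ 1` let `Se e` be the set of all pairs `(a, b)` of positive
integers with `a² + b² = e`. The functions `2 sin (π a x) sin (π b y)`, `(a, b) ∈ Se e`, are an
orthonormal basis of the Dirichlet eigenspace `DirE e` of the square for the eigenvalue `π² e`.

**Random bases.** In each eigenspace choose an orthonormal basis at random with respect to the Haar
measure of the orthogonal group, independently of the other eigenspaces. That is, let `O` be a random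
infinite matrix, indexed by the pairs of positive integers, such that the blocks
`block e O = (O p q)`, `p, q ∈ Se e`, are independent and Haar distributed in the orthogonal groups
(`IsHaarLaw`), and put `rf O p = ∑ O p q * 2 sin (π q₁ x) sin (π q₂ y)`, the sum over the `q` with
`|q|² = |p|²`.

**Result.** Almost surely the following holds, for every enumeration `p 0, p 1, ...` of the pairs of
positive integers with nondecreasing `|p n|²`: the functions `u n = rf O (p n)` are an orthonormal
basis of `L² (Sq)` which consists of Dirichlet eigenfunctions with nondecreasing eigenvalues; it is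
quantum ergodic along a subsequence of full density; and it has a subsequence of full density whose
local measures, over the square and over all its nonempty open subsets, converge weakly (on the space
of continuous functions with the topology of uniform convergence on bounded sets) to the law of the
isotropic random wave, with convergence of all moments. Random matrices `O` of this kind, and
enumerations `p`, exist.

**Proof.** For a row `h` of a Haar distributed orthogonal matrix of size `M`, invariance under
reflections gives `E h_k⁴ = 3 E h_k² h_l² = 3 / (M (M + 2))`. Hence the expectation of the sum, over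
all rows, of `(∑ h_k² f_k - mean of f)²` is at most `2` for `|f| ≤ 1`. The variances of these sums
are at most `8 M`, and by Chebyshev's inequality and the Borel-Cantelli lemma along the powers of two
their total over all energies up to `X` is almost surely `o (X)`, because most energies have large
multiplicity. With the equidistribution of the lattice points on most circles this gives quantum
ergodicity along a subsequence of full density, and then the theorem on all quantum ergodic bases
applies (hand-in `QuantumErgodicBases`).
-/

set_option autoImplicit false
set_option maxHeartbeats 400000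
open MeasureTheory Filter Topology Complex ProbabilityTheory

namespace Pool.Agent.Results.MP_6b977f_mp.AlmostEveryBasis

open Pool.Agent.N661.BR (MW J0 resc IsCutoff IsQuantumErgodic IsRandomWave IsLocalLimit)
open Pool.Agent.L0h56.BQ
open Pool.Agent.L0h77.BW
open Pool.Agent.L0h77.WK

theorem result :
    -- the law of the isotropic random wave exists
    (∃ μ : Measure MW, IsProbabilityMeasure μ ∧ IsRandomWave μ) ∧
    -- almost every basis
    (∀ (Ω : Type) [MeasurableSpace Ω] (P : Measure Ω) [IsProbabilityMeasure P]
      (O : Ω → ℕ × ℕ → ℕ × ℕ → ℝ), (∀ e, Measurable fun w => block e (O w)) →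
      iIndepFun (fun e w => block e (O w)) P →
      (∀ e, IsHaarLaw (P.map fun w => block e (O w))) →
      ∀ᵐ w ∂P, ∀ p : ℕ → ℕ × ℕ, IsEnum p →
        IsONB DirE (fun n => (p n).1 ^ 2 + (p n).2 ^ 2) (fun n => rf (O w) (p n)) ∧
        (∃ n : ℕ → ℕ, FullDensity n ∧ IsQuantumErgodic Sq
          (fun i => Real.pi ^ 2 * ((p (n i)).1 ^ 2 + (p (n i)).2 ^ 2 : ℕ))
          (fun i => rf (O w) (p (n i)))) ∧
        ∃ m : ℕ → ℕ, FullDensity m ∧ HasRandomWaveLimit Sq
          (fun i => Real.pi ^ 2 * ((p (m i)).1 ^ 2 + (p (m i)).2 ^ 2 : ℕ))
          (fun i => rf (O w) (p (m i))) ∧ WeakLimit Sq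
          (fun i => Real.pi ^ 2 * ((p (m i)).1 ^ 2 + (p (m i)).2 ^ 2 : ℕ))
          (fun i => rf (O w) (p (m i)))) ∧
    -- existence of the random matrices and of the enumerations
    (∃ (Ω : Type) (_ : MeasurableSpace Ω) (P : Measure Ω) (O : Ω → ℕ × ℕ → ℕ × ℕ → ℝ),
      IsProbabilityMeasure P ∧ (∀ e, Measurable fun w => block e (O w)) ∧
      iIndepFun (fun e w => block e (O w)) P ∧
      ∀ e, IsHaarLaw (P.map fun w => block e (O w))) ∧
    ∃ p : ℕ → ℕ × ℕ, IsEnum p :=
  ⟨exr, fun Ω _ P _ O hm hind hH => aeb' P O hm hind hH, blocks_exist, enum_exists⟩

end Pool.Agent.Results.MP_6b977f_mp.AlmostEveryBasis
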