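import Pool.Agent.L0h77.WK.FinC

/-!
# Quantum ergodic sequences on grid domains have the random wave limit

`Ω` is a nonempty bounded open set whose boundary lies in the lines `x ∈ ℤ` and `y ∈ ℤ` (`IsPoly`):
the unit square, an `L`-shaped domain, any polyomino. `DirE E` and `NeuE E` are the spaces of all
linear combinations of the functions `sin (π a x) sin (π b y)`, respectively
`cos (π a x) cos (π b y)`, with `a² + b² = E`; they are Dirichlet, respectively Neumann,
eigenfunctions of `Ω` with eigenvalue `π² E`.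

**Result.** Let `p ≡ 1 (mod 4)` be a prime number, `m ≥ 1`, `k n → ∞`, and let `u n` be real
functions, all in `DirE (m p ^ k n)` or all in `NeuE (m p ^ k n)`, with `∫_Ω (u n)² = |Ω|`. If the
sequence is quantum ergodic, then its local measures, over `Ω` and over every nonempty open subset of
`Ω`, converge to the law of the isotropic random wave: weakly, on the space of continuous functions
with the topology of uniform convergence on bounded sets (`WeakLimit`). This law exists. If `m` is a sum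
of two squares prime to `p`, then there are quantum ergodic sequences of this kind.

Proof. A lattice point of norm `m p ^ k` is divisible by `π ^ j` and by `π̄ ^ (k - j)`, where
`p = π π̄`. Hence the frequencies, cut into long blocks of consecutive values of `j` with short
gaps, have no additive relations of order at most two in each block, and the product
`∏ (1 + i t Y_b)` over the blocks has mean one; this gives the central limit theorem of Salem
and Zygmund for arbitrary small coefficients. After removing few extreme values of `j`, all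
functions have a small period, and this gives the limit on every open set. Tightness of the local
measures follows from a Sobolev type inequality, Parseval's identity and the theorem of Arzela and
Ascoli.
-/

set_option autoImplicit false
open MeasureTheory Filter Topology Complex
open scoped ContDiff

namespace Pool.Agent.Results.MP_6b977f_mp.ErgodicGridDomains

open Pool.Agent.N661.BR (MW J0 resc IsCutoff IsQuantumErgodic IsRandomWave IsLocalLimit)
open Pool.Agent.W745.RW (lap dx dy)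
open Pool.Agent.L0h56.BQ
open Pool.Agent.L0h77.WK (WeakLimit weak_grid exr)

theorem result (Ω : Set ℂ) (hΩ : IsPoly Ω) (hne : Ω.Nonempty) (p : ℕ) (hp : p.Prime)
    (h4 : p % 4 = 1) (m : ℕ) (hm : 0 < m) :
    -- the law of the isotropic random wave exists
    (∃ μ : Measure MW, IsProbabilityMeasure μ ∧ IsRandomWave μ) ∧
    -- Dirichlet and Neumann eigenfunctions
    (∀ E : ℕ,
      (∀ u ∈ DirE E, ContDiff ℝ ∞ u ∧ (∀ z, lap u z + Real.pi ^ 2 * E * u z = 0) ∧
        ∀ z ∈ frontier Ω, u z = 0) ∧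
      (∀ u ∈ NeuE E, ContDiff ℝ ∞ u ∧ (∀ z, lap u z + Real.pi ^ 2 * E * u z = 0) ∧
        ∀ z : ℂ, ((∃ n : ℤ, z.re = n) → dx u z = 0) ∧ ((∃ n : ℤ, z.im = n) → dy u z = 0))) ∧
    -- quantum ergodic sequences
    (∀ k : ℕ → ℕ, Tendsto k atTop atTop → ∀ u : ℕ → ℂ → ℝ,
      ((∀ n, u n ∈ DirE (m * p ^ k n)) ∨ ∀ n, u n ∈ NeuE (m * p ^ k n)) →
      (∀ n, ∫ z in Ω, u n z ^ 2 = volume.real Ω) →
      IsQuantumErgodic Ω (fun n => Real.pi ^ 2 * (m * p ^ k n : ℕ)) u →
      WeakLimit Ω (fun n => Real.pi ^ 2 * (m * p ^ k n : ℕ)) u ∧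
      ∀ χ : ℝ → ℝ, IsCutoff χ →
        (∀ Ω' ⊆ Ω, IsOpen Ω' → Ω'.Nonempty → ∀ (K : ℕ) (w : Fin K → ℂ) (t : Fin K → ℝ),
          Tendsto (fun n => (1 / volume.real Ω' : ℝ) * ∫ z in Ω', Complex.exp (I * ((∑ j, t j *
            resc χ Ω (Real.pi ^ 2 * (m * p ^ k n : ℕ)) (u n) z (w j) : ℝ) : ℂ))) atTop
            (𝓝 (Complex.exp ((-(∑ i, ∑ j, t i * t j * J0 ‖w i - w j‖) / 2 : ℝ))))) ∧
        ∀ μ : Measure MW, IsProbabilityMeasure μ →
          (IsLocalLimit χ Ω (fun n => Real.pi ^ 2 * (m * p ^ k n : ℕ)) u μ ↔ IsRandomWave μ)) ∧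
    -- existence
    ((∃ a b : ℕ, a ^ 2 + b ^ 2 = m) → ¬ p ∣ m → ∃ u : ℕ → ℂ → ℝ,
      (∀ n, u n ∈ DirE (m * p ^ (n + 4))) ∧ (∀ n, ∫ z in Ω, u n z ^ 2 = volume.real Ω) ∧
      IsQuantumErgodic Ω (fun n => Real.pi ^ 2 * (m * p ^ (n + 4) : ℕ)) u) := by
  have hE : ∀ k : ℕ, 0 < m * p ^ k := fun k => Nat.mul_pos hm (pow_pos hp.pos _)
  refine ⟨exr, fun E => ⟨fun u hu => ?_, fun u hu => ?_⟩, ?_, ?_⟩
  · obtain ⟨h1, h2⟩ := DirE_eig hu
    exact ⟨h1.1, h1.2, fun z hz => h2 z (hΩ.fr z hz)⟩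
  · obtain ⟨h1, h2⟩ := NeuE_eig hu
    exact ⟨h1.1, h1.2, h2⟩
  · intro k hk u hu hn hq
    have key : ∀ χ : ℝ → ℝ, IsCutoff χ → ∀ Ω' ⊆ Ω, IsOpen Ω' → Ω'.Nonempty →
        ∀ (K : ℕ) (w : Fin K → ℂ) (t : Fin K → ℝ),
          Tendsto (fun n => (1 / volume.real Ω' : ℝ) * ∫ z in Ω', Complex.exp (I * ((∑ j, t j *
            resc χ Ω (Real.pi ^ 2 * (m * p ^ k n : ℕ)) (u n) z (w j) : ℝ) : ℂ))) atTop
            (𝓝 (Complex.exp ((-(∑ i, ∑ j, t i * t j * J0 ‖w i - w j‖) / 2 : ℝ)))) := by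
      intro χ hχ Ω' hsub ho' hne' K w t
      rcases hu with hu | hu
      · choose b hb using fun n => DirE_rep (hu n)
        exact poly_lim p hp h4 m hm k hk (-1) (by norm_num) b u hb Ω hΩ hne hn hq Ω' ho' hne' hsub
          χ hχ K w t
      · choose b hb using fun n => NeuE_rep (hu n)
        exact poly_lim p hp h4 m hm k hk 1 (by norm_num) b u hb Ω hΩ hne hn hq Ω' ho' hne' hsub
          χ hχ K w t
    refine ⟨weak_grid (fun n => hE (k n)) hu hΩ hne hn key, fun χ hχ => ⟨key χ hχ, fun μ hμ => ?_⟩⟩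
    exact limit_iff χ Ω _ u (fun K w t => key χ hχ Ω subset_rfl hΩ.op hne K w t) μ
  · rintro ⟨a, b, hab⟩ hpm
    have hVm : (V m).Nonempty := ⟨⟨a, b⟩, by
      rw [mem_V, norm_eq]
      show (a : ℤ) ^ 2 + (b : ℤ) ^ 2 = (m : ℤ)
      exact_mod_cast hab⟩
    obtain ⟨ϖ, hϖ⟩ := spl_exists p hp h4
    have hk : Tendsto (fun n : ℕ => n + 4) atTop atTop := tendsto_add_atTop_nat 4
    have hW : ∀ n : ℕ, 0 < (W' (m * p ^ (n + 4))).card := by
      intro n
      have h1 := (hϖ.card_V m hpm (n + 4)).1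
      have h2 := W'_card (m * p ^ (n + 4))
      have h3 : 1 ≤ (V m).card := hVm.card_pos
      have h5 : n + 4 + 1 ≤ (n + 4 + 1) * (V m).card := Nat.le_mul_of_pos_right _ h3
      omega
    have hr : ∀ n, Rep (-1) (m * p ^ (n + 4)) (be (m * p ^ (n + 4))) (ue (m * p ^ (n + 4))) :=
      fun n => be_rep _
    have hb1 : ∀ n, ∑ ν ∈ V (m * p ^ (n + 4)), be (m * p ^ (n + 4)) ν ^ 2 = 1 := fun n =>
      be_norm _ (hW n)
    refine ⟨fun n => ue (m * p ^ (n + 4)), fun n => ue_mem _, fun n => ?_, ?_⟩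
    · have h1 := sq_int (σ := -1) (by norm_num) hr hΩ n
      rw [hb1 n, mul_one] at h1
      exact h1
    · refine ang_qe p hp h4 m hm (fun n => n + 4) (-1) (fun n => be (m * p ^ (n + 4))) _ hr hb1 ?_ Ω
      intro q hq
      exact ang_of_even (fun n => hE (n + 4)) hr
        (fun q hq1 => be_even hp h4 m hm hpm hVm (fun n => n + 4) hk q hq1) (by norm_num) q hq

end Pool.Agent.Results.MP_6b977f_mp.ErgodicGridDomains
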