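import Pool.Agent.L0h77.WK.FinB

/-!
# Every quantum ergodic basis of the square has the random wave limit

`Sq` is the open unit square. `DirE e` and `NeuE e` are the spaces of all linear combinations of the
functions `sin (π a x) sin (π b y)`, respectively `cos (π a x) cos (π b y)`, with `a² + b² = e`: the
Dirichlet and the Neumann eigenspace of the square for the eigenvalue `π² e`. `IsONB F E u` says that
`(u n)` is an orthonormal basis of the real Hilbert space `L² (Sq)`, that `u n ∈ F (E n)`, and that
the eigenvalues `π² E n` are nondecreasing.

**Results.**

1. Let `(u n)` be any such basis which has a quantum ergodic subsequence of full density. Then it has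
  a subsequence of full density whose local measures converge weakly, on the space of continuous
  functions with the topology of uniform convergence on bounded sets, to the law of the isotropic
  random wave. This is the conclusion of Q1. Moreover the local measures of every nonempty open subset
  of the square converge to the random wave as well, together with all moments.
2. There are such bases for the Dirichlet condition.

There is no assumption on the sizes of the coefficients of `u n` and on the multiplicities of the
eigenvalues.

**Proof.** Let `e` be a norm, `V e` the set of lattice points of norm `e`. The moments of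
`∑ b ν exp (iπ ν·z)` are sums over the tuples in `V e` with sum zero. If all `|b ν| ≤ κ`, then the
tuples which contain a minimal relation of length at least three contribute at most
`κ · #{minimal relations through a given point} · ∑ |b ν|²`. Quantum ergodicity on a nonempty open
set makes `κ` tend to zero. So one needs energies with a *bounded* number of minimal relations of
given length through each point. The number of points of norm `e` is unbounded, hence one cannot
apply bounds which hold for averages. Instead let `p = π π̄` be the largest prime `≡ 1 (mod 4)` which
divides `e`. For most `e` it is large and divides `e` only once. A relation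
`ν₁ + ... + ν_k = 0`, where every `ν_i` is divisible by exactly one of `π`, `π̄`, becomes
`π A + π̄ B = 0`, where `A`, `B` are sums of at most `k` lattice points of norm `e / p`. For fixed
`e / p` and fixed `A, B ≠ 0` this determines `π` up to units, and the number of `p` is bounded by the
number of the possible `(A, B)`, a power of the number of points of norm `e / p`. Since the number of
divisors is small for most `e`, such `e` are rare, and the relations with `A = B = 0` give an
induction on the number of prime factors. In the same way there are no short nonzero sums, which
gives the limits on all open subsets. The exceptional set of energies has density at most `ε`, and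
the bound for the number of relations depends on `ε`; since `κ` tends to zero, a diagonal argument
gives the full density. For the existence one uses, in each eigenspace, a flat orthogonal matrix (Hartley
matrix) with respect to the sine basis, and the theorem that the lattice points on most circles are
equidistributed (Kátai, Környei; Erdős, Hall), for which a proof with the same method (prime factors
with bounded Gaussian cosines) is given. For the passage from finite dimensional distributions to weak
convergence, a Sobolev type inequality with mixed derivatives and Parseval's identity bound the mean,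
over a random point, of the maximum of the rescaled function and of its Lipschitz constant on a ball;
the local measures are tight by the theorem of Arzela and Ascoli.
-/

set_option autoImplicit false
set_option maxHeartbeats 400000
open MeasureTheory Filter Topology Complex
open scoped ContDiff

namespace Pool.Agent.Results.MP_6b977f_mp.QuantumErgodicBases

open Pool.Agent.N661.BR (MW J0 resc IsCutoff IsQuantumErgodic IsRandomWave IsLocalLimit)
open Pool.Agent.W745.RW (lap dx dy)
open Pool.Agent.L0h56.BQ
open Pool.Agent.L0h77.BW
open Pool.Agent.L0h77.WK

theorem result :
    -- the law of the isotropic random wave exists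
    (∃ μ : Measure MW, IsProbabilityMeasure μ ∧ IsRandomWave μ) ∧
    -- the eigenspaces
    (∀ e : ℕ,
      (∀ u ∈ DirE e, ContDiff ℝ ∞ u ∧ (∀ z, lap u z + Real.pi ^ 2 * e * u z = 0) ∧
        ∀ z ∈ frontier Sq, u z = 0) ∧
      (∀ u ∈ NeuE e, ContDiff ℝ ∞ u ∧ (∀ z, lap u z + Real.pi ^ 2 * e * u z = 0) ∧
        ∀ z : ℂ, ((∃ n : ℤ, z.re = n) → dx u z = 0) ∧ ((∃ n : ℤ, z.im = n) → dy u z = 0))) ∧
    -- 1. every quantum ergodic basis of the unit square
    (∀ F : ℕ → Submodule ℝ (ℂ → ℝ), F = DirE ∨ F = NeuE →
      ∀ (E : ℕ → ℕ) (u : ℕ → ℂ → ℝ), IsONB F E u →
      ∀ n : ℕ → ℕ, FullDensity n →
      IsQuantumErgodic Sq (fun i => Real.pi ^ 2 * E (n i)) (fun i => u (n i)) →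
      ∃ m : ℕ → ℕ, FullDensity m ∧ Set.range m ⊆ Set.range n ∧
        HasRandomWaveLimit Sq (fun i => Real.pi ^ 2 * E (m i)) (fun i => u (m i)) ∧
        WeakLimit Sq (fun i => Real.pi ^ 2 * E (m i)) (fun i => u (m i))) ∧
    -- 2. existence
    (∃ (E : ℕ → ℕ) (u : ℕ → ℂ → ℝ), IsONB DirE E u ∧
      (∃ n : ℕ → ℕ, FullDensity n ∧
        IsQuantumErgodic Sq (fun i => Real.pi ^ 2 * E (n i)) (fun i => u (n i))) ∧
      ∃ m : ℕ → ℕ, FullDensity m ∧
        HasRandomWaveLimit Sq (fun i => Real.pi ^ 2 * E (m i)) (fun i => u (m i)) ∧
        WeakLimit Sq (fun i => Real.pi ^ 2 * E (m i)) (fun i => u (m i))) := by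
  refine ⟨exr, fun E => ⟨fun u hu => ?_, fun u hu => ?_⟩, main_one', exi'⟩
  · obtain ⟨h1, h2⟩ := DirE_eig hu
    exact ⟨h1.1, h1.2, fun z hz => h2 z (Sq_poly.fr z hz)⟩
  · obtain ⟨h1, h2⟩ := NeuE_eig hu
    exact ⟨h1.1, h1.2, h2⟩

end Pool.Agent.Results.MP_6b977f_mp.QuantumErgodicBases
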