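import Pool.Agent.L0h77.WK.FinB

/-!
# For typical energies, quantum ergodicity on one open set implies the random wave limit everywhere

`TorE e` is the space of all real linear combinations of `cos (π (a x + b y))` and
`sin (π (a x + b y))` with integers `a² + b² = e`: the real eigenfunctions of the flat torus
`ℝ² / 2 ℤ²` for the eigenvalue `π² e`. It contains the spaces `DirE e` and `NeuE e` spanned by
`sin (π a x) sin (π b y)` and by `cos (π a x) cos (π b y)`, which are Dirichlet and Neumann
eigenfunctions of the unit square and of every bounded open set `Ω` whose boundary lies in the lines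
`x ∈ ℤ`, `y ∈ ℤ` (`IsPoly`: polyominoes, for instance `L`-shaped domains).

**Result.** For every `ε > 0` there is a set `S` of energies, which contains the norms of all but
`ε X` of the lattice points `ν ≠ 0` with `|ν|² ≤ X`, for all `X`, with the following properties. Let
`E n ∈ S` tend to infinity.

1. Let `u n ∈ TorE (E n)`. If the sequence is quantum ergodic on *some* nonempty open set `U`
  (equidistribution in the unit cotangent bundle over `U`), then it is quantum ergodic on every set,
  and on *every* nonempty bounded open subset `Ω` of the plane its local measures converge weakly (on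
  the space of continuous functions with the topology of uniform convergence on bounded sets) to the
  law of the isotropic random wave, with convergence of all finite dimensional distributions and all
  moments.
2. If the numbers `π² (E n)` are Dirichlet eigenvalues of the unit square, then there are quantum
  ergodic `u n ∈ DirE (E n)`, normalised on all polyominoes. By 1 they have the random wave limit on
  every polyomino and on all its open subsets.

**Proof.** Let `V e` be the set of lattice points of norm `e`. For most `e` the number of minimal
relations `ν₁ + ... + ν_k = 0` in `V e` through a given point is bounded by a constant which depends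
only on `k` and `ε`, and there are no nonzero sums of `k` elements in a given ball. This is shown with
the largest prime `p = π π̄ ≡ 1 (mod 4)` which divides `e`: a relation with terms divisible by `π`
and terms not divisible by `π` becomes `π A + π̄ B = 0`, where `A`, `B` are sums of lattice points of
norm `e / p`, and this determines `π` up to units by `A`, `B`; since `p` is large there are few such
`e`, and relations with all terms divisible by `π` are relations in `V (e / p)`. The absence of small
nonzero sums of two elements shows that quantum ergodicity on `U` is equivalent to equidistribution of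
the measures `∑ |c ν|² δ_{ν / |ν|}` on the circle, which does not depend on `U`. Then `max |c ν|`
tends to zero, and the bound for the number of minimal relations gives the moments of all linear
combinations of translates over all open sets. The existence uses the equidistribution of the lattice
points on most circles (Kátai, Környei; Erdős, Hall), which is proved here as well. Tightness of the
local measures follows from a Sobolev type inequality, Parseval's identity and the theorem of Arzela
and Ascoli.
-/

set_option autoImplicit false
set_option maxHeartbeats 400000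
open MeasureTheory Filter Topology Complex
open scoped ContDiff

namespace Pool.Agent.Results.MP_6b977f_mp.TypicalEnergies

open Pool.Agent.N661.BR (MW J0 resc IsCutoff IsQuantumErgodic IsRandomWave IsLocalLimit)
open Pool.Agent.W745.RW (lap dx dy)
open Pool.Agent.L0h56.BQ
open Pool.Agent.L0h77.BW
open Pool.Agent.L0h77.WK

theorem result :
    -- the law of the isotropic random wave exists
    (∃ μ : Measure MW, IsProbabilityMeasure μ ∧ IsRandomWave μ) ∧
    -- the eigenfunctions
    (∀ e : ℕ, DirE e ≤ TorE e ∧ NeuE e ≤ TorE e ∧
      (∀ u ∈ TorE e, ContDiff ℝ ∞ u ∧ (∀ z, lap u z + Real.pi ^ 2 * e * u z = 0) ∧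
        ∀ z, u (z + 2) = u z ∧ u (z + 2 * I) = u z) ∧
      (∀ Ω : Set ℂ, IsPoly Ω → ∀ u ∈ DirE e, ∀ z ∈ frontier Ω, u z = 0) ∧
      ∀ u ∈ NeuE e, ∀ z : ℂ,
        ((∃ n : ℤ, z.re = n) → dx u z = 0) ∧ ((∃ n : ℤ, z.im = n) → dy u z = 0)) ∧
    -- typical energies
    ∀ ε : ℝ, 0 < ε → ∃ S : Set ℕ,
      (∀ X : ℕ, (cnt (fun e => e ∉ S) X : ℝ) ≤ ε * X) ∧
      ∀ E : ℕ → ℕ, (∀ n, 0 < E n ∧ E n ∈ S) → Tendsto E atTop atTop →
        -- 1. quantum ergodicity on one open set implies the random wave limit on all open sets
        (∀ u : ℕ → ℂ → ℝ, (∀ n, u n ∈ TorE (E n)) → ∀ U : Set ℂ, IsOpen U → U.Nonempty →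
          IsQuantumErgodic U (fun n => Real.pi ^ 2 * E n) u →
          (∀ Ω : Set ℂ, IsQuantumErgodic Ω (fun n => Real.pi ^ 2 * E n) u) ∧
          ∀ Ω : Set ℂ, IsOpen Ω → Bornology.IsBounded Ω → Ω.Nonempty →
            HasRandomWaveLimit Ω (fun n => Real.pi ^ 2 * E n) u ∧
            WeakLimit Ω (fun n => Real.pi ^ 2 * E n) u) ∧
        -- 2. existence
        ((∀ n, ∃ a b : ℕ, 0 < a ∧ 0 < b ∧ a ^ 2 + b ^ 2 = E n) →
          ∃ u : ℕ → ℂ → ℝ, (∀ n, u n ∈ DirE (E n)) ∧
            (∀ Ω : Set ℂ, IsPoly Ω → ∀ n, ∫ z in Ω, u n z ^ 2 = volume.real Ω) ∧
            ∀ Ω : Set ℂ, IsQuantumErgodic Ω (fun n => Real.pi ^ 2 * E n) u) := by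
  refine ⟨exr, fun e => ⟨DirE_le e, NeuE_le e, fun u hu => ?_, fun Ω hΩ u hu z hz => ?_,
    fun u hu => ?_⟩, gen_main'⟩
  · obtain ⟨h1, h2⟩ := TorE_eig hu
    exact ⟨h1.1, h1.2, h2⟩
  · exact (DirE_eig hu).2 z (hΩ.fr z hz)
  · exact (NeuE_eig hu).2

end Pool.Agent.Results.MP_6b977f_mp.TypicalEnergies
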